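import Pool.Agent.H37.WIN.Stp
import Pool.Agent.H62.GEN.JatE
import Pool.Agent.H78.MIC.ClsG

/-!
# Windows: sorted levels, thin windows of slope one

`thn_one`: a good window where the diagonal of a level has slope one is thin. `srt_gs`: the levels
are sorted at every good window.
-/

set_option autoImplicit false

namespace Pool.PKG

open MeasureTheory Set Filter Topology
open Pool.Agent.H49.Ent Pool.Agent.H32.Dense Pool.STK Pool.KA Pool.KSAT Pool.K2S Pool.PB
open Pool.GEN Pool.S6C Pool.STAT Pool.CHT Pool.GRW Pool.ONE Pool.STA Pool.PBL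
open Pool.LEV (Law)
open Pool.TOP (TopS)
open Pool.STR (ThinAt SteepAt StaAt StaD)
open Pool.NMS (LeAt dia_le)
open Pool.QNT (affB_of)

variable {n : ℕ} {hn : 2 ≤ n} {S : PCl n} {P : ℝ → ℝ → ℝ} {r : ℝ → ℝ}
  {P' : ℕ → List (Fin n) × Fin n → ℝ → ℝ → ℝ} {Λ : Finset (Fin n) → Fin n → ℝ → ℝ → ℝ}
  {PB : ℕ → List (Fin n) × Fin n → ℝ → ℝ → ℝ}

/-- **The levels are sorted** at every good window. -/
theorem srt_gs (H : Pk hn S P r P' Λ) (hTop : TopS n) (hF : FZX (n - 1)) {o : Od n} {g : ℝ}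
    (hg : g ∈ Gs P r P' Λ o) : SrtN hn P P' o g := by
  obtain ⟨α, Q, c, F⟩ := H.fac hTop hF hg
  intro k hk k' hk'
  have h1 := F.gre k hk k' hk'.le
  have h2 := tau_mono (c := cc hn o.1.1) (l := k') (l' := k) (i := k) H.ne (H.cht o.2)
    ((cc_inj1 hn o.1.1).mono fun x hx => by
      rw [Set.mem_Iio] at hx ⊢
      omega) hk'.le le_rfl F.g0 le_rfl (rc_of_cont F.g1 (F.con _))
  rw [tau_self] at h2
  unfold dgN
  rw [if_pos (by omega : k' < n - 1), if_pos hk]
  exact h1.trans h2

/-- Two thresholds with differentiable diagonals which agree at `g`: the slopes are equal. -/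
theorem slo_eq {PN PT' : ℝ → ℝ → ℝ} {g : ℝ} (hg0 : 0 < g) (hg1 : g < 1)
    (hN : Law PN) (hT : Law PT') (hD1 : DifferentiableAt ℝ (fun a => PN a a) g)
    (hD2 : DifferentiableAt ℝ (fun a => PT' a a) g) (heq : PN g g = PT' g g)
    (hle' : LeAt PN PT' g) : deriv (fun a => PN a a) g = deriv (fun a => PT' a a) g := by
  obtain ⟨s1, hs1⟩ : ∃ s, s = deriv (fun a => PN a a) g := ⟨_, rfl⟩
  obtain ⟨s2, hs2⟩ : ∃ s, s = deriv (fun a => PT' a a) g := ⟨_, rfl⟩
  obtain ⟨ρ₄, hρ₄, h4⟩ := dia_le hT hN hg0 hg1 hle'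
  have main : ∀ e' : ℝ, 0 < e' → |s2 - s1| ≤ e' := by
    intro e' he'0
    obtain ⟨r₁, hr₁, h1⟩ := affB_of hD1 (M := 8) (e := e') (by norm_num) he'0
    obtain ⟨r₂, hr₂, h2⟩ := affB_of hD2 (M := 8) (e := e') (by norm_num) he'0
    rw [← hs1] at h1
    rw [← hs2] at h2
    obtain ⟨r, hr⟩ : ∃ r, r = min (min r₁ r₂) (ρ₄ / 9) / 2 := ⟨_, rfl⟩
    have hm : 0 < min (min r₁ r₂) (ρ₄ / 9) := lt_min (lt_min hr₁ hr₂) (by linarith)
    have hr0 : 0 < r := by linarith
    have m0 : r < min (min r₁ r₂) (ρ₄ / 9) := by linarith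
    have m1 : r < r₁ := m0.trans_le ((min_le_left _ _).trans (min_le_left _ _))
    have m2 : r < r₂ := m0.trans_le ((min_le_left _ _).trans (min_le_right _ _))
    have m4 : r < ρ₄ / 9 := m0.trans_le (min_le_right _ _)
    obtain ⟨ε, hε⟩ : ∃ ε, ε = r * min 1 (e' / (|s1| + 1)) := ⟨_, rfl⟩
    have hs0 := abs_nonneg s1
    have hmn : 0 < min 1 (e' / (|s1| + 1)) := lt_min one_pos (by positivity)
    have hε0 : 0 < ε := by
      rw [hε]
      exact mul_pos hr0 hmn
    have hε1 : ε ≤ r := by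
      rw [hε]
      have := mul_le_mul_of_nonneg_left (min_le_left 1 (e' / (|s1| + 1))) hr0.le
      linarith
    have hε2 : s1 * ε ≤ e' * r := by
      have h5 : s1 * ε ≤ (|s1| + 1) * ε := by
        refine mul_le_mul_of_nonneg_right ?_ hε0.le
        have := le_abs_self s1
        linarith
      refine h5.trans ?_
      rw [hε]
      have h6 := mul_le_mul_of_nonneg_left (min_le_right 1 (e' / (|s1| + 1))) hr0.le
      have h7 := mul_le_mul_of_nonneg_left h6 (by linarith : 0 ≤ |s1| + 1)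
      refine h7.trans (le_of_eq ?_)
      field_simp
    have key : ∀ x : ℝ, |x - g| ≤ 7 * r →
        PT' x x ≤ PN g g + s1 * (x - g) + s1 * ε + e' * r := by
      intro x hx
      have hx' := abs_le.1 hx
      have q1 := h4 x (x + ε) (by linarith) (by linarith) (by linarith)
      have q2 := abs_le.1 (h1 r hr0 m1 (x + ε) (by
        rw [abs_le]
        constructor <;> linarith))
      have q3 : s1 * (x + ε - g) = s1 * (x - g) + s1 * ε := by ring
      rw [q3] at q2
      linarith [q2.2]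
    have k1 := key (g + 7 * r) (by rw [add_sub_cancel_left, abs_of_pos (by linarith)])
    have k2 := key (g - 7 * r) (by
      rw [sub_sub_cancel_left, abs_neg, abs_of_pos (by linarith)])
    have k3 := abs_le.1 (h2 r hr0 m2 (g + 7 * r) (by
      rw [add_sub_cancel_left, abs_of_pos (by linarith)]
      linarith))
    have k4 := abs_le.1 (h2 r hr0 m2 (g - 7 * r) (by
      rw [sub_sub_cancel_left, abs_neg, abs_of_pos (by linarith)]
      linarith))
    have e1 : g + 7 * r - g = 7 * r := by ring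
    have e2 : g - 7 * r - g = -(7 * r) := by ring
    rw [e1] at k1 k3
    rw [e2] at k2 k4
    have d1 : (s2 - s1) * (7 * r) ≤ 3 * (e' * r) := by linarith [k3.1]
    have d2 : (s1 - s2) * (7 * r) ≤ 3 * (e' * r) := by linarith [k4.1]
    rw [abs_le]
    constructor
    · have h8 : -e' * r ≤ (s2 - s1) * r := by
        have : 0 ≤ e' * r := by positivity
        linarith
      exact le_of_mul_le_mul_right h8 hr0
    · have h8 : (s2 - s1) * r ≤ e' * r := by
        have : 0 ≤ e' * r := by positivity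
        linarith
      exact le_of_mul_le_mul_right h8 hr0
  have h0 : |s2 - s1| ≤ 0 := le_of_forall_pos_le_add fun e he => by
    rw [zero_add]
    exact main e he
  have h5 : s2 - s1 = 0 := abs_eq_zero.1 (le_antisymm h0 (abs_nonneg _))
  rw [← hs1, ← hs2]
  linarith

/-- **Slope one**: the window is thin. -/
theorem thn_num {PN PT' : ℝ → ℝ → ℝ} {g : ℝ} (hg0 : 0 < g) (hg1 : g < 1)
    (hN : Law PN) (hT : Law PT') (hD1 : DifferentiableAt ℝ (fun a => PN a a) g)
    (hD2 : DifferentiableAt ℝ (fun a => PT' a a) g) (heq : PN g g = PT' g g)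
    (hle' : LeAt PN PT' g) (hs : deriv (fun a => PN a a) g = 1) : ThinAt PN PT' g := by
  have hs2 := slo_eq hg0 hg1 hN hT hD1 hD2 heq hle'
  rw [hs] at hs2
  intro e he
  obtain ⟨r₁, hr₁, h1⟩ := affB_of hD1 (M := 8) (e := e / 2) (by norm_num) (by linarith)
  obtain ⟨r₂, hr₂, h2⟩ := affB_of hD2 (M := 8) (e := e / 2) (by norm_num) (by linarith)
  rw [hs] at h1
  rw [← hs2] at h2
  refine ⟨min (min r₁ r₂) (min (g / 8) ((1 - g) / 8)), lt_min (lt_min hr₁ hr₂)
    (lt_min (by linarith) (by linarith)), fun r hr hr' a w ha1 ha2 ha3 => ?_⟩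
  have m1 : r < r₁ := hr'.trans_le ((min_le_left _ _).trans (min_le_left _ _))
  have m2 : r < r₂ := hr'.trans_le ((min_le_left _ _).trans (min_le_right _ _))
  have m3 : r < g / 8 := hr'.trans_le ((min_le_right _ _).trans (min_le_left _ _))
  have m4 : r < (1 - g) / 8 := hr'.trans_le ((min_le_right _ _).trans (min_le_right _ _))
  have c0 := hN.mono_w a w a (by linarith) ha2 le_rfl (by linarith)
  have c1 := abs_le.1 (h1 r hr m1 a (by
    rw [abs_le]
    constructor <;> linarith))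
  have c2 := abs_le.1 (h2 r hr m2 w (by
    rw [abs_le]
    constructor <;> linarith))
  linarith [c1.2, c2.1]

/-- **The good windows of slope one are thin.** -/
theorem PkT.thn_one (H : PkT hn S P r P' Λ PB) (hTop : TopS n) (hF : FZX (n - 1)) :
    ∀ᵐ g : ℝ, ∀ o : Od n, g ∈ Gs P r P' Λ o → ∀ i ≤ n - 1, slN hn P P' o i g = 1 →
      ThinAt (LvL hn P P' o i) (LvT hn PB o i) g := by
  filter_upwards [H.dia_all H.pble hTop hF] with g k1 o ho i hi hsl
  obtain ⟨α, Q, c, F⟩ := H.toPk.fac hTop hF ho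
  obtain ⟨d1, d2, d3⟩ := k1 o ho i hi
  have hle := H.leAt H.pble hTop hF ho (i := i) hi
  refine thn_num F.g0 F.g1 (H.lawL o i) (H.lawT o i) d1 d2 d3 hle ?_
  rw [← hsl]
  unfold slN
  refine congrArg (fun f : ℝ → ℝ => deriv f g) ?_
  funext a
  exact (dgN_LvL o hi a).symm

end Pool.PKG
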