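import Pool.Agent.H78.MIC.ClsK
import Pool.Agent.H9.GEN.PBk

/-!
# Windows: no gain over any boxes at thin windows, gain at static windows of large slope

`rgh_ae`: at almost every good window, the thresholds of a thin coordinate over the boxes of any
sides have no gain. `con_sml`: a static coordinate of slope at least two has gain.
-/

set_option autoImplicit false

namespace Pool.PKG

open MeasureTheory Set Filter Topology
open Pool.Agent.H49.Ent Pool.Agent.H32.Dense Pool.STK Pool.KA Pool.KSAT Pool.K2S Pool.PB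
open Pool.GEN Pool.S6C Pool.STAT Pool.CHT Pool.GRW Pool.ONE Pool.STA Pool.PBL
open Pool.LBT (LSys ThrOf)
open Pool.LEV (Law)
open Pool.TOP (TopS)
open Pool.STR (StK DPS dia_ae ThinAt SteepAt StaAt StaD)
open Pool.CHB (chsysB CtB)
open Pool.ISO (PtD Att2 lvN WinD)
open Pool.NMS (LeAt StepAt Gn leAt_of dia_le)
open Pool.QNT (affB_of)

variable {n : ℕ} {hn : 2 ≤ n} {S : PCl n} {P : ℝ → ℝ → ℝ} {r : ℝ → ℝ}
  {P' : ℕ → List (Fin n) × Fin n → ℝ → ℝ → ℝ} {Λ : Finset (Fin n) → Fin n → ℝ → ℝ → ℝ}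
  {PB : ℕ → List (Fin n) × Fin n → ℝ → ℝ → ℝ}

theorem dgN_LvL (o : Od n) {i : ℕ} (hi : i ≤ n - 1) (a : ℝ) :
    dgN hn P P' o i a = LvL hn P P' o i a a := by
  unfold dgN
  rcases hi.lt_or_eq with h1 | rfl
  · rw [if_pos h1, LvL_lt o h1]
    rfl
  · rw [if_neg (lt_irrefl _), LvL_top]

/-- Numbers: a threshold `PW` which is at most `PN` at a dense set of pairs, a thin window. -/
theorem rgh_num {PN PT' PW : ℝ → ℝ → ℝ} {D : ℝ → ℝ} {g : ℝ} (hg0 : 0 < g) (hg1 : g < 1)
    (hW : Law PW) (hN : Law PN) (hT : Law PT') (hD : DifferentiableAt ℝ D g)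
    (hDN : ∀ a, D a = PN a a) (hle : LeAt PN PW g) (hle' : LeAt PN PT' g)
    (hth : ThinAt PN PT' g) :
    Sml fun r d => Box7 g r fun a w => PW a w ≤ D w + (a - w) + d := by
  intro e he
  obtain ⟨S, hS⟩ : ∃ S, S = |deriv D g| := ⟨_, rfl⟩
  have hS0 : 0 ≤ S := by
    rw [hS]
    exact abs_nonneg _
  obtain ⟨r₁, hr₁, h1⟩ := affB_of hD (M := 8) (e := e / 8) (by norm_num) (by linarith)
  obtain ⟨r₂, hr₂, h2⟩ := hth (e / 4) (by linarith)
  obtain ⟨ρ₃, hρ₃, h3⟩ := hle
  obtain ⟨ρ₄, hρ₄, h4⟩ := dia_le hT hN hg0 hg1 hle'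
  obtain ⟨r₀, hr₀⟩ : ∃ r₀, r₀ = min (min r₁ r₂) (min (min (ρ₃ / 8) (ρ₄ / 8)) (min (g / 8)
    ((1 - g) / 8))) := ⟨_, rfl⟩
  have m1 : r₀ ≤ r₁ := by
    rw [hr₀]
    exact (min_le_left _ _).trans (min_le_left _ _)
  have m2 : r₀ ≤ r₂ := by
    rw [hr₀]
    exact (min_le_left _ _).trans (min_le_right _ _)
  have m3 : r₀ ≤ ρ₃ / 8 := by
    rw [hr₀]
    exact (min_le_right _ _).trans ((min_le_left _ _).trans (min_le_left _ _))
  have m4 : r₀ ≤ ρ₄ / 8 := by
    rw [hr₀]
    exact (min_le_right _ _).trans ((min_le_left _ _).trans (min_le_right _ _))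
  have m5 : r₀ ≤ g / 8 := by
    rw [hr₀]
    exact (min_le_right _ _).trans ((min_le_right _ _).trans (min_le_left _ _))
  have m6 : r₀ ≤ (1 - g) / 8 := by
    rw [hr₀]
    exact (min_le_right _ _).trans ((min_le_right _ _).trans (min_le_right _ _))
  refine ⟨r₀, by
    rw [hr₀]
    exact lt_min (lt_min hr₁ hr₂) (lt_min (lt_min (by linarith) (by linarith))
      (lt_min (by linarith) (by linarith))), fun r hr hr' a w ha1 ha2 ha3 => ?_⟩
  obtain ⟨ε, hε⟩ : ∃ ε, ε = r * min (1 / 4) (e / (16 * (S + 1))) := ⟨_, rfl⟩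
  have hmn : 0 < min (1 / 4) (e / (16 * (S + 1))) := lt_min (by norm_num) (by positivity)
  have hε0 : 0 < ε := by
    rw [hε]
    exact mul_pos hr hmn
  have hε1 : ε ≤ r / 4 := by
    rw [hε]
    have := mul_le_mul_of_nonneg_left (min_le_left (1 / 4 : ℝ) (e / (16 * (S + 1)))) hr.le
    linarith
  have hε2 : (S + 1) * ε ≤ e * r / 16 := by
    rw [hε]
    have h5 := mul_le_mul_of_nonneg_left (min_le_right (1 / 4 : ℝ) (e / (16 * (S + 1)))) hr.le
    have h6 := mul_le_mul_of_nonneg_left h5 (by linarith : 0 ≤ S + 1)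
    refine h6.trans (le_of_eq ?_)
    field_simp
  obtain ⟨a', w', k1, k2, k3, k4, k5, k6⟩ := h3 (a + 2 * ε) (w + ε) ε (by linarith)
    (by linarith) (by linarith) hε0
  -- the boxes of the sides
  have hww : w ≤ w' := by linarith
  have haa : a ≤ a' := by linarith
  have q1 : PW a w ≤ PW a' w' :=
    (hW.mono_a a a' w (by linarith) ha2 haa (by linarith)).trans
      (hW.mono_w a' w w' (by linarith) hww k5 (by linarith))
  have q2 := h2 r hr (hr'.trans_le m2) a' w' (by linarith) k5 (by linarith)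
  have q3 : PT' w' w' ≤ PN (w' + ε) (w' + ε) := h4 w' (w' + ε) (by linarith) (by linarith)
    (by linarith)
  rw [← hDN] at q3
  have q4 := h1 r hr (hr'.trans_le m1) (w' + ε) (by
    rw [abs_le]
    constructor <;> linarith)
  have q5 := h1 r hr (hr'.trans_le m1) w (by
    rw [abs_le]
    constructor <;> linarith)
  have q6 : deriv D g * (w' + ε - w) ≤ S * (2 * ε) := by
    have h5 : deriv D g * (w' + ε - w) ≤ |deriv D g| * (w' + ε - w) :=
      mul_le_mul_of_nonneg_right (le_abs_self _) (by linarith)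
    rw [← hS] at h5
    exact h5.trans (mul_le_mul_of_nonneg_left (by linarith) hS0)
  have q7 := abs_le.1 q4
  have q8 := abs_le.1 q5
  have q9 : 0 ≤ e * r := by positivity
  nlinarith

/-- **`PW ≤ LvL` at a dense set of pairs** near the good windows, for the thresholds over boxes of
any sides. -/
theorem PkT.leW (H : PkT hn S P r P' Λ PB) (hTop : TopS n) (hF : FZX (n - 1))
    {be PW : ℕ → List (Fin n) × Fin n → ℝ → ℝ → ℝ}
    (hW : ∀ j, ThrOf (chsysB n none (be j)) S (PW j)) {o : Od n} {g : ℝ}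
    (hg : g ∈ Gs P r P' Λ o) {i : ℕ} (hi : i ≤ n - 1) :
    LeAt (LvL hn P P' o i) (bet (PW o.2) (cc hn o.1.1) i) g := by
  obtain ⟨α, Q, c, F⟩ := H.toPk.fac hTop hF hg
  have hg0 := F.g0
  have hg1 := F.g1
  obtain ⟨E, hE, -, h1⟩ := F.ptD H.toPk
  obtain ⟨vs, e, ρ₀, he, heg, hρ₀, h2⟩ := h1 (tht o.2 * (g / 2)) (mul_pos (tht_pos _) (by linarith))
  refine ⟨min ρ₀ (min (g / 2) (1 - g)), lt_min hρ₀ (lt_min (by linarith) (by linarith)),
    fun a w ε h3 h4 h5 h6 => ?_⟩
  have m1 := min_le_left ρ₀ (min (g / 2) (1 - g))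
  have m2 := (min_le_right ρ₀ (min (g / 2) (1 - g))).trans (min_le_left _ _)
  have m3 := (min_le_right ρ₀ (min (g / 2) (1 - g))).trans (min_le_right _ _)
  rcases hi.lt_or_eq with hi' | rfl
  · have hae := Pool.ISO.att2_ae (H.cht o.2) (Pt := P) (H.tgs.law ())
    obtain ⟨w', k1, k2⟩ := (Measure.dense_of_ae hae).exists_between
      (show max (w - ε) (max (g / 2) (g - ρ₀)) < w from max_lt (by linarith) (max_lt (by linarith)
        (by linarith)))
    have l1 : w - ε < w' := (le_max_left _ _).trans_lt k2.1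
    have l0 : g / 2 < w' := ((le_max_left _ _).trans (le_max_right _ _)).trans_lt k2.1
    have l2 : 0 < w' := by linarith
    have l3 : g - ρ₀ < w' := ((le_max_right _ _).trans (le_max_right _ _)).trans_lt k2.1
    obtain ⟨q, k3, k4⟩ := exists_rat_btwn (show max 0 (a - ε - w') < a - w' from
      max_lt (by linarith [k2.2]) (by linarith))
    have l4 : (0 : ℝ) < q := (le_max_left _ _).trans_lt k3
    have l5 : a - ε - w' < q := (le_max_right _ _).trans_lt k3
    have k5 := k1 l2 q l4.le (by linarith)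
    obtain ⟨ρ, S₀, Q', -, k6⟩ := h2 (w' + q) w' k5 (by linarith) (by
      rw [abs_le]
      constructor <;> linarith) (by
      rw [abs_le]
      constructor <;> linarith [k2.2])
    refine ⟨w' + q, w', by linarith, by linarith, l1, k2.2.le, by linarith, ?_⟩
    rw [LvL_lt o hi']
    refine thrB_le H.ne (H.cht o.2) (hW o.2) (tht_pos o.2) H.tmh (cc_inj1 hn _) (ptC_of k6)
      (fun l hl => ?_) hi'
    have h7 := k6.self.pts.vis 0 one_pos l hl l le_rfl
    change bet (P' o.2) (cc hn o.1.1) l (w' + q) w' + tht o.2 * w' < 1 at h7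
    have h8 : e ≤ tht o.2 * w' := heg.trans (mul_le_mul_of_nonneg_left l0.le (tht_pos _).le)
    linarith
  · obtain ⟨w', k1, k2⟩ := exists_rat_btwn (show max (w - ε) (g / 2) < w from
      max_lt (by linarith) (by linarith))
    obtain ⟨a', k3, k4⟩ := exists_rat_btwn (show max (a - ε) w < a from max_lt (by linarith) h4)
    have l1 : w - ε < w' := (le_max_left _ _).trans_lt k1
    have l2 : g / 2 < w' := (le_max_right _ _).trans_lt k1
    have l3 : a - ε < a' := (le_max_left _ _).trans_lt k3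
    have l4 : w < a' := (le_max_right _ _).trans_lt k3
    refine ⟨a', w', l3, k4.le, l1, k2.le, by linarith, ?_⟩
    rw [LvL_top]
    have h7 : bet (PW o.2) (cc hn o.1.1) (n - 1) = PW o.2 (lis o.1.1, lst hn) := by
      unfold bet
      rw [map_cc, cc_top]
    rw [h7]
    exact Pool.LBT.thr_le (i' := ()) H.ne (hW o.2) H.tgs (fun K =>
      ⟨K, fun _ _ _ _ _ _ hT => ⟨lis o.1.1, lis_nodup _, lst_lis hn _, CtB.tch hT⟩⟩)
      (by
        have : (0 : ℝ) < w' := by linarith
        exact_mod_cast this) (by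
        have : (w' : ℝ) ≤ a' := by linarith
        exact_mod_cast this) (by
        have : (a' : ℝ) ≤ 1 := by linarith
        exact_mod_cast this)

/-- **No gain over boxes of any sides** at the thin windows. -/
theorem PkT.rgh_ae (H : PkT hn S P r P' Λ PB) (hTop : TopS n) (hF : FZX (n - 1))
    {be PW : ℕ → List (Fin n) × Fin n → ℝ → ℝ → ℝ}
    (hW : ∀ j, ThrOf (chsysB n none (be j)) S (PW j)) :
    ∀ᵐ g : ℝ, ∀ o : Od n, g ∈ Gs P r P' Λ o → ∀ i ≤ n - 1,
      ThinAt (LvL hn P P' o i) (LvT hn PB o i) g →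
      Sml fun r d => Box7 g r fun a w =>
        bet (PW o.2) (cc hn o.1.1) i a w ≤ dgN hn P P' o i w + (a - w) + d := by
  filter_upwards [H.dia_all H.pble hTop hF] with g k1 o ho i hi hth
  obtain ⟨α, Q, c, F⟩ := H.toPk.fac hTop hF ho
  have h1 : dgN hn P P' o i = fun a => LvL hn P P' o i a a := funext fun a => dgN_LvL o hi a
  refine rgh_num F.g0 F.g1 ((hW o.2).law _) (H.lawL o i) (H.lawT o i) ?_
    (fun a => dgN_LvL o hi a) (H.leW hTop hF hW ho hi) (H.leAt H.pble hTop hF ho hi) hth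
  rw [h1]
  exact (k1 o ho i hi).1

/-- **Gain over boxes** for a static coordinate of slope at least two. -/
theorem con_sml {o : Od n} {l : ℕ} {g : ℝ} (hl : l < n - 1)
    (hd : DifferentiableAt ℝ (dgN hn P P' o l) g) (hs : 2 ≤ slN hn P P' o l g)
    (hst : StaAt (bet (P' o.2) (cc hn o.1.1) l) g) :
    Sml fun r d => Box7 g r fun a w =>
      dgN hn P P' o l w + 2 * (a - w) ≤ bet (P' o.2) (cc hn o.1.1) l a w + d := by
  intro e he
  obtain ⟨r₁, hr₁, h1⟩ := affB_of hd (M := 8) (e := e / 4) (by norm_num) (by linarith)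
  obtain ⟨r₂, hr₂, h2⟩ := hst (e / 2) (by linarith)
  refine ⟨min r₁ r₂, lt_min hr₁ hr₂, fun r hr hr' a w ha1 ha2 ha3 => ?_⟩
  have q1 := h1 r hr (hr'.trans_le (min_le_left _ _)) w (by
    rw [abs_le]
    constructor <;> linarith)
  have q2 := h1 r hr (hr'.trans_le (min_le_left _ _)) a (by
    rw [abs_le]
    constructor <;> linarith)
  have q3 : bet (P' o.2) (cc hn o.1.1) l a a ≤ bet (P' o.2) (cc hn o.1.1) l a w + e / 2 * r :=
    h2 r hr (hr'.trans_le (min_le_right _ _)) a w (by linarith) ha2 (by linarith)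
  have q4 : dgN hn P P' o l a = bet (P' o.2) (cc hn o.1.1) l a a := by
    unfold dgN
    rw [if_pos hl]
    rfl
  have q5 : 2 * (a - w) ≤ deriv (dgN hn P P' o l) g * (a - w) :=
    mul_le_mul_of_nonneg_right hs (by linarith)
  have q6 := abs_le.1 q1
  have q7 := abs_le.1 q2
  show dgN hn P P' o l w + 2 * (a - w) ≤ bet (P' o.2) (cc hn o.1.1) l a w + e * r
  nlinarith

end Pool.PKG
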