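import Pool.Agent.H37.WIN.Rgh

/-!
# Windows: steep windows of the target of slope at most two are static

`sta_steep`: if the threshold of the target over the fattest boxes is `2`-steep at a good window and
the slope of the target is at most two, then the diagonal of the target is at most this threshold,
up to `o (r)`.
-/

set_option autoImplicit false

namespace Pool.PKG

open MeasureTheory Set Filter Topology
open Pool.Agent.H49.Ent Pool.Agent.H32.Dense Pool.STK Pool.KA Pool.KSAT Pool.K2S Pool.PB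
open Pool.GEN Pool.S6C Pool.STAT Pool.CHT Pool.GRW Pool.ONE Pool.STA Pool.PBL
open Pool.LEV (Law)
open Pool.TOP (TopS)
open Pool.STR (ThinAt SteepAt StaAt StaD)
open Pool.NMS (LeAt dia_le)
open Pool.QNT (affB_of)

variable {n : ℕ} {hn : 2 ≤ n} {S : PCl n} {P : ℝ → ℝ → ℝ} {r : ℝ → ℝ}
  {P' : ℕ → List (Fin n) × Fin n → ℝ → ℝ → ℝ} {Λ : Finset (Fin n) → Fin n → ℝ → ℝ → ℝ}
  {PB : ℕ → List (Fin n) × Fin n → ℝ → ℝ → ℝ}

/-- Numbers: the diagonals of two thresholds which agree at `g`, one of them `K`-steep. -/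
theorem steep_num {PN PT' : ℝ → ℝ → ℝ} {K g : ℝ} (hg0 : 0 < g) (hg1 : g < 1)
    (hN : Law PN) (hT : Law PT') (hD1 : DifferentiableAt ℝ (fun a => PN a a) g)
    (hD2 : DifferentiableAt ℝ (fun a => PT' a a) g) (heq : PN g g = PT' g g)
    (hle' : LeAt PN PT' g) (hs : SteepAt K PT' g) (hK : deriv (fun a => PN a a) g ≤ K) :
    Sml fun r d => Box7 g r fun a w => PN a a ≤ PT' a w + d := by
  intro e he
  obtain ⟨s1, hs1⟩ : ∃ s, s = deriv (fun a => PN a a) g := ⟨_, rfl⟩
  obtain ⟨s2, hs2⟩ : ∃ s, s = deriv (fun a => PT' a a) g := ⟨_, rfl⟩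
  obtain ⟨e', he'⟩ : ∃ e', e' = e / 8 := ⟨_, rfl⟩
  have he'0 : 0 < e' := by
    rw [he']
    linarith
  obtain ⟨r₁, hr₁, h1⟩ := affB_of hD1 (M := 8) (e := e') (by norm_num) he'0
  obtain ⟨r₂, hr₂, h2⟩ := affB_of hD2 (M := 8) (e := e') (by norm_num) he'0
  obtain ⟨r₃, hr₃, h3⟩ := hs e' he'0
  obtain ⟨ρ₄, hρ₄, h4⟩ := dia_le hT hN hg0 hg1 hle'
  rw [← hs1] at h1 hK
  rw [← hs2] at h2
  refine ⟨min (min r₁ r₂) (min r₃ (ρ₄ / 9)), lt_min (lt_min hr₁ hr₂) (lt_min hr₃ (by linarith)),
    fun r hr hr' a w ha1 ha2 ha3 => ?_⟩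
  have m1 : r < r₁ := hr'.trans_le ((min_le_left _ _).trans (min_le_left _ _))
  have m2 : r < r₂ := hr'.trans_le ((min_le_left _ _).trans (min_le_right _ _))
  have m3 : r < r₃ := hr'.trans_le ((min_le_right _ _).trans (min_le_left _ _))
  have m4 : r < ρ₄ / 9 := hr'.trans_le ((min_le_right _ _).trans (min_le_right _ _))
  obtain ⟨ε, hε⟩ : ∃ ε, ε = r * min 1 (e' / (|s1| + 1)) := ⟨_, rfl⟩
  have hs0 := abs_nonneg s1
  have hmn : 0 < min 1 (e' / (|s1| + 1)) := lt_min one_pos (by positivity)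
  have hε0 : 0 < ε := by
    rw [hε]
    exact mul_pos hr hmn
  have hε1 : ε ≤ r := by
    rw [hε]
    have := mul_le_mul_of_nonneg_left (min_le_left 1 (e' / (|s1| + 1))) hr.le
    linarith
  have hε2 : s1 * ε ≤ e' * r := by
    have h5 : s1 * ε ≤ (|s1| + 1) * ε := by
      refine mul_le_mul_of_nonneg_right ?_ hε0.le
      have := le_abs_self s1
      linarith
    refine h5.trans ?_
    rw [hε]
    have h6 := mul_le_mul_of_nonneg_left (min_le_right 1 (e' / (|s1| + 1))) hr.le
    have h7 := mul_le_mul_of_nonneg_left h6 (by linarith : 0 ≤ |s1| + 1)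
    refine h7.trans (le_of_eq ?_)
    field_simp
  have key : ∀ x : ℝ, |x - g| ≤ 7 * r → PT' x x ≤ PN g g + s1 * (x - g) + s1 * ε + e' * r := by
    intro x hx
    have hx' := abs_le.1 hx
    have q1 := h4 x (x + ε) (by linarith) (by linarith) (by linarith)
    have q2 := abs_le.1 (h1 r hr m1 (x + ε) (by
      rw [abs_le]
      constructor <;> linarith))
    have q3 : s1 * (x + ε - g) = s1 * (x - g) + s1 * ε := by ring
    rw [q3] at q2
    linarith [q2.2]
  have k1 := key (g + 7 * r) (by rw [add_sub_cancel_left, abs_of_pos (by linarith)])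
  have k2 := key (g - 7 * r) (by
    rw [sub_sub_cancel_left, abs_neg, abs_of_pos (by linarith)])
  have k3 := abs_le.1 (h2 r hr m2 (g + 7 * r) (by
    rw [add_sub_cancel_left, abs_of_pos (by linarith)]
    linarith))
  have k4 := abs_le.1 (h2 r hr m2 (g - 7 * r) (by
    rw [sub_sub_cancel_left, abs_neg, abs_of_pos (by linarith)]
    linarith))
  have e1 : g + 7 * r - g = 7 * r := by ring
  have e2 : g - 7 * r - g = -(7 * r) := by ring
  rw [e1] at k1 k3
  rw [e2] at k2 k4
  -- the slopes agree up to a small number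
  have d1 : (s2 - s1) * (7 * r) ≤ 3 * (e' * r) := by linarith [k3.1]
  have d2 : (s1 - s2) * (7 * r) ≤ 3 * (e' * r) := by linarith [k4.1]
  have hw : |w - g| ≤ 7 * r := by
    rw [abs_le]
    constructor <;> linarith
  have ha : |a - g| ≤ 7 * r := by
    rw [abs_le]
    constructor <;> linarith
  have d3 : (s1 - s2) * (w - g) ≤ 3 * (e' * r) := by
    have h5 : (s1 - s2) * (w - g) ≤ |s1 - s2| * (7 * r) := by
      refine (le_abs_self _).trans ?_
      rw [abs_mul]
      exact mul_le_mul_of_nonneg_left hw (abs_nonneg _)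
    refine h5.trans ?_
    rcases abs_choice (s1 - s2) with h6 | h6
    · rw [h6]
      exact d2
    · rw [h6]
      linarith
  have c1 := abs_le.1 (h1 r hr m1 a (ha.trans (by linarith)))
  have c2 := abs_le.1 (h2 r hr m2 w (hw.trans (by linarith)))
  have c3 := h3 r hr m3 a w (by linarith) ha2 (by linarith)
  have c4 : s1 * (a - w) ≤ K * (a - w) := mul_le_mul_of_nonneg_right hK (by linarith)
  have c5 : s1 * (a - g) = s1 * (w - g) + s1 * (a - w) := by ring
  have c6 : (s1 - s2) * (w - g) = s1 * (w - g) - s2 * (w - g) := by ring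
  rw [c6] at d3
  have c7 : e * r = 8 * (e' * r) := by
    rw [he']
    ring
  show PN a a ≤ PT' a w + e * r
  rw [c7]
  have her : 0 ≤ e' * r := by positivity
  linarith [c1.2, c2.1]

/-- **Steep windows of the target of slope at most two** are static. -/
theorem PkT.sta_steep (H : PkT hn S P r P' Λ PB) (hTop : TopS n) (hF : FZX (n - 1)) :
    ∀ᵐ g : ℝ, ∀ o : Od n, g ∈ Gs P r P' Λ o → SteepAt 2 (PT hn PB o) g →
      slN hn P P' o (n - 1) g ≤ 2 →
      Sml fun r d => Box7 g r fun a w => P a a ≤ PT hn PB o a w + d := by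
  filter_upwards [H.dia_all H.pble hTop hF] with g k1 o ho hst hsl
  obtain ⟨α, Q, c, F⟩ := H.toPk.fac hTop hF ho
  obtain ⟨d1, d2, d3⟩ := k1 o ho (n - 1) le_rfl
  have hL : LvL hn P P' o (n - 1) = P := by
    funext a w
    exact LvL_top o a w
  have hle := H.leAt H.pble hTop hF ho (i := n - 1) le_rfl
  have hlT := H.lawT o (n - 1)
  rw [LvT_top] at d2 d3 hle hlT
  rw [hL] at d1 d3 hle
  have hsl' : deriv (fun a => P a a) g ≤ 2 := by
    have h1 : dgN hn P P' o (n - 1) = fun a => P a a := by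
      unfold dgN
      rw [if_neg (lt_irrefl _)]
    unfold slN at hsl
    rwa [h1] at hsl
  exact steep_num F.g0 F.g1 (H.tgs.law ()) hlT d1 d2 d3 hle hst hsl'

end Pool.PKG
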